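import Pool.Agent.W647.HY4

/-!
# The higher odd Chern character of `K₁` of twisted group categories and graded rings

Let `G` be any group and `𝒜` an additive `G`-category. For an object `A` the endomorphism ring of `A`
in the twisted group category `𝒜[G]` is a ring `S` graded by `G`, with homogeneous components
`𝒮 s = Hom (A, s A)`; every class in `K₁(𝒜[G])` is the class of an invertible element of such a
ring. So let `S` be a ring graded by `G` (for example a skew group ring or a crossed product `R * G`)
and `u` an invertible matrix over `S` with inverse `v`, and `u_s`, `v_s` the homogeneous components.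
The component of degree `2k+1` at the conjugacy class of `g ∈ G` of the odd Chern character of `u` is
determined by the numbers `k! τ`, where

`τ = ∑ T (tr (v_{w 0} u_{w 1} v_{w 2} ⋯ u_{w (2k+1)}), c (t, t w₀, t w₀ w₁, …, t w₀ ⋯ w_{2k}))`,

the sum over all `w ∈ G ^ (2k+2)` with product `y` conjugate to `g`, where `t = t y` conjugates `y`
to `g`, `c` is an alternating homogeneous cocycle of degree `2k+1` with values in an abelian group
`A`, invariant under the centralizer of `g` and under `g` in each single variable (`IsClassCoc g c`),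
and `T : S × A → M` is biadditive with `T (x y, a) = T (y x, a)`.

If `G` is torsion-free, the assembly map of Q1 is onto for `n = 1` and the coefficients are regular,
then `K₁` is generated by the image of `K₁` and `K₀` of the coefficients in degrees `0` and `1`, and
these numbers are zero for `k ≥ 1`. We prove for all groups, all graded rings, all coefficients, all
`k ≥ 1` and all `g` of finite order: `k! τ` is divisible in `M` by all `N ≥ 1` which are prime to the
orders of the elements of finite order of `G`.

The theorem `graded_odd` of the starting file `Pool/Agent/W647/HY4.lean` was not handed in before (a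
starting hand-in, `MP_8f66f0_al.OddChernAllCoefficients`, treats group rings and `g = 1`).
-/

set_option autoImplicit false

namespace Pool.Agent.Results.MP_5d3e93_al.GradedOddChern

open Pool.Agent.W647.HX1

universe u1 u2 u3 u4 u5

/-- Let `S` be a ring graded by the group `G`, `T : S × A → M` biadditive with
`T (x y, a) = T (y x, a)`, `u` an invertible matrix over `S` with inverse `v`, `g ∈ G` of finite
order, `k ≥ 1`, `c` a class cocycle of degree `2k+1` at `g` with values in `A`, and `k! τ` the value of
the component at the conjugacy class of `g` of the odd Chern character of `u`.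

(1) `k! τ` is divisible in `M` by all `N ≥ 1` such that `G` has no element of order `p` for the
primes `p ∣ N`. (2) `τ = 0` if `N M = 0` for such an `N` which is prime to `k!`. (3) If `G` is
torsion-free and `0` is the only element of `M` which is divisible by all `N ≥ 1`, then
`k! τ = 0`. -/
theorem result (G : Type u1) [Group G] [DecidableEq G] (S : Type u2) [Ring S]
    (𝒮 : G → AddSubgroup S) [DirectSum.Decomposition 𝒮] (h1 : (1 : S) ∈ 𝒮 1)
    (hmul : ∀ g h : G, ∀ x ∈ 𝒮 g, ∀ y ∈ 𝒮 h, x * y ∈ 𝒮 (g * h))
    (A : Type u3) [AddCommGroup A] (M : Type u4) [AddCommGroup M] (T : S →+ A →+ M)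
    (hT : ∀ x y, T (x * y) = T (y * x)) (d : Type u5) [Fintype d] [DecidableEq d]
    (u v : Matrix d d S) (huv : u * v = 1) (hvu : v * u = 1) (g : G) (hg : IsOfFinOrder g)
    (t : G → G) (ht : ∀ y, IsConj y g → t y * y * (t y)⁻¹ = g) (k : ℕ) (hk : 1 ≤ k)
    (c : (Fin (2 * k + 1 + 1) → G) → A) (hc : IsClassCoc g c) :
    (∀ N : ℕ, N ≠ 0 → (∀ p : ℕ, p.Prime → p ∣ N → ∀ y : G, orderOf y ≠ p) →
      ∃ y : M, k.factorial • odTau T g t c (gc 𝒮 v) (gc 𝒮 u) = N • y) ∧
    (∀ N : ℕ, N ≠ 0 → (∀ p : ℕ, p.Prime → p ∣ N → ∀ y : G, orderOf y ≠ p) →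
      (∀ y : M, N • y = 0) → N.Coprime k.factorial → odTau T g t c (gc 𝒮 v) (gc 𝒮 u) = 0) ∧
    ((∀ y : G, IsOfFinOrder y → y = 1) → (∀ x : M, (∀ N : ℕ, N ≠ 0 → ∃ y, x = N • y) → x = 0) →
      k.factorial • odTau T g t c (gc 𝒮 v) (gc 𝒮 u) = 0) := by
  have h2 : ∀ N : ℕ, N ≠ 0 → (∀ p : ℕ, p.Prime → p ∣ N → ∀ y : G, orderOf y ≠ p) →
      ∃ y : M, k.factorial • odTau T g t c (gc 𝒮 v) (gc 𝒮 u) = N • y := fun N hN hp =>
    graded_odd 𝒮 h1 hmul T hT hg ht (by omega) hc v u hvu huv N hN hp
  refine ⟨h2, fun N hN hp hM hcop => ?_, fun hG hM => hM _ fun N hN => h2 N hN ?_⟩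
  · obtain ⟨y, hy⟩ := h2 N hN hp
    rw [hM] at hy
    have h3 := Nat.gcd_eq_gcd_ab N k.factorial
    rw [hcop] at h3
    have h4 : ((N : ℤ) * (Nat.gcdA N k.factorial) +
        ((k.factorial : ℕ) : ℤ) * (Nat.gcdB N k.factorial)) •
          odTau T g t c (gc 𝒮 v) (gc 𝒮 u) = odTau T g t c (gc 𝒮 v) (gc 𝒮 u) := by
      rw [← h3, Nat.cast_one, one_smul]
    rw [add_smul, mul_smul, natCast_zsmul, hM, zero_add, mul_smul, natCast_zsmul, smul_comm, hy,
      smul_zero] at h4
    exact h4.symm
  · intro p hp _ y hy
    have h5 : IsOfFinOrder y := orderOf_pos_iff.1 (hy ▸ hp.pos)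
    have h6 := hG y h5
    rw [h6, orderOf_one] at hy
    exact hp.one_lt.ne hy

end Pool.Agent.Results.MP_5d3e93_al.GradedOddChern
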