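import Pool.Agent.TH57.TT2.GR2

set_option autoImplicit false

/-! Invertible matrices over crossed products of division rings with groups with unique products in
which, in each block, all rows but one have at most two nonzero homogeneous components. -/

namespace Pool.Agent.Results.MP_5d3e93_al.OneLongRowGraded

open TH57.Thr TH57.TT2 DirectSum

variable {ι : Type} [AddGroup ι] [DecidableEq ι] {S : Type} [Ring S] (𝒜 : ι → AddSubgroup S)
  [GradedRing 𝒜]

/-- The subgroup of `GL_κ(S)` generated by the commutators and by the diagonal matrices with one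
diagonal entry a homogeneous unit and the others `1`. -/
def Gen (κ : Type) [Fintype κ] [DecidableEq κ] : Subgroup (Matrix κ κ S)ˣ :=
  Subgroup.closure ({y | ∃ a b, y = a * b * a⁻¹ * b⁻¹} ∪
    {y | ∃ u : Sˣ, (∃ g, (u : S) ∈ 𝒜 g) ∧
      ∃ i : κ, y.val = Matrix.diagonal (Function.update 1 i (u : S))})

/-- The number of nonzero homogeneous components. -/
noncomputable def components (x : S) : ℕ := {g | (decompose 𝒜 x g : S) ≠ 0}.ncard

theorem HH_le (κ : Type) [Fintype κ] [DecidableEq κ] : HH (GR.HU 𝒜) κ ≤ Gen 𝒜 κ := by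
  apply sup_le
  · rw [commutator_def, Subgroup.commutator_def, Subgroup.closure_le]
    rintro _ ⟨a, _, b, _, rfl⟩
    exact Subgroup.subset_closure (Or.inl ⟨a, b, rfl⟩)
  · rw [Subgroup.closure_le]
    rintro _ ⟨i, u, hu, rfl⟩
    have h1 : GR.HU 𝒜 ≤ (Gen 𝒜 κ).comap (Units.map (dgm i)) := by
      rw [GR.HU, Subgroup.closure_le]
      intro v hv
      exact Subgroup.subset_closure (Or.inr ⟨v, hv, i, rfl⟩)
    exact h1 hu

/-- `S` is graded by a group `ι` (written additively, not necessarily commutative) with unique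
products, and the nonzero homogeneous elements are invertible. `A` is an invertible matrix whose rows
and columns are coloured so that a nonzero entry is in a row and a column of the same colour, and of
any two rows of the same colour one has at most two nonzero homogeneous components. Then some
stabilisation of `A` is a product of commutators and of diagonal matrices with one entry a homogeneous
unit and the others `1`. -/
theorem result (ι : Type) [AddGroup ι] [DecidableEq ι] [UniqueSums ι] (S : Type) [Ring S]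
    (𝒜 : ι → AddSubgroup S) [GradedRing 𝒜]
    (hdiv : ∀ g, ∀ a ∈ 𝒜 g, a ≠ 0 → ∃ b, a * b = 1 ∧ b * a = 1)
    (n : ℕ) (A : (Matrix (Fin n) (Fin n) S)ˣ) (c d : Fin n → ℕ)
    (hcd : ∀ i j, A.val i j ≠ 0 → c i = d j)
    (hA : ∀ i i', i ≠ i' → c i = c i' → ∑ j, components 𝒜 (A.val i j) ≤ 2 ∨
      ∑ j, components 𝒜 (A.val i' j) ≤ 2) :
    ∃ m : ℕ, ∃ B ∈ Gen 𝒜 (Fin n ⊕ Fin m), B.val = Matrix.fromBlocks A.val 0 0 1 := by
  rcases subsingleton_or_nontrivial S with hS | hS
  · refine ⟨0, 1, one_mem _, ?_⟩
    ext i j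
    exact Subsingleton.elim _ _
  · have hneg : (-1 : Sˣ) ∈ GR.HU 𝒜 := by
      refine Subgroup.subset_closure ⟨0, ?_⟩
      rw [Units.val_neg, Units.val_one]
      exact neg_mem SetLike.GradedOne.one_mem
    have hT : TT (GR.HU 𝒜) A := GR.TT_of_TR _ hneg A
      (GR.TR_long 𝒜 hdiv (Int.castRingHom S) (Fintype.card (Fin n)) (Fin n) rfl A c d hcd hA)
    obtain ⟨μ, i1, i2, h⟩ := hT
    obtain ⟨e⟩ : Nonempty (Fin (Fintype.card μ) ≃ μ) := ⟨(Fintype.equivFin μ).symm⟩
    have h1 := re_mem _ (Equiv.sumCongr (Equiv.refl (Fin n)) e) _ h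
    refine ⟨Fintype.card μ, _, HH_le 𝒜 _ h1, ?_⟩
    change (Matrix.fromBlocks A.val 0 0 1).submatrix _ _ = _
    ext (i | i) (j | j) <;> simp [Matrix.one_apply]

end Pool.Agent.Results.MP_5d3e93_al.OneLongRowGraded
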