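import Pool.Agent.TH6.FB.Cp

set_option autoImplicit false

/-! Let `S` be a crossed product of the group `G` (a `G`-graded ring with units of all degrees). An
`S`-module with a presentation which is controlled over `G` by a matrix of `ℓ²`-operator norm less
than `3 / √2` is a direct sum of modules induced from the subrings of `S` which belong to virtually
cyclic subgroups of `G`. -/

namespace Pool.Agent.Results.MP_5d3e93_al.ThinModules

open TH57.Thr TH6.PF TH6.FB

theorem result (S : Type) [Ring S] (G : Type) [Group G] (X : CrossedProduct S G)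
    (P : Type) [AddCommGroup P] [Module S P]
    (m n : ℕ) (M : Matrix (Fin m) (Fin n) S) (e : P ≃ₗ[S] Coker M)
    (A : Matrix (Fin m) (Fin n) (MonoidAlgebra ℤ G))
    (c : ℝ) (hc0 : 0 < c) (hc : c ^ 2 < 9 / 2) (hA : NormLE A c) (hM : CtrlC X A M) :
    CrossedSum X P :=
  ctrl_crossed X P m n M e A c hc0 hc hA hM

end Pool.Agent.Results.MP_5d3e93_al.ThinModules
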